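import Pool.Agent.Q278.VX.L
import Pool.Agent.Q278.VX.M

/-!
# A truncated binomial sum with argument `-3/125` modulo `p²`

For every prime `p > 5` the sum `∑_{k<p} C(-1/2,k) C(-1/6,k) (-3/125)^k` is congruent to
`±(2A - p/(2A))` modulo `p²` if `p = A² + 3B²`, and to `0` modulo `p` if `p = 2 mod 3`.
-/

set_option autoImplicit false

namespace Pool.Agent.Results.MP_683361_nt.Full

open Finset

/-- the binomial coefficient `x (x - 1) ... (x - k + 1) / k!` -/
def gbinom (x : ℚ) (k : ℕ) : ℚ := (∏ i ∈ range k, (x - (i : ℚ))) / (k.factorial : ℚ)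

/-- the sum `S_p` -/
def S (p : ℕ) : ℚ := ∑ k ∈ range p, gbinom (-1 / 2) k * gbinom (-1 / 6) k * (-3 / 125) ^ k

/-- congruence modulo `p ^ n` of rational numbers with denominators prime to `p` -/
def Cong (p n : ℕ) (u v : ℚ) : Prop := ¬ p ∣ u.den ∧ ¬ p ∣ v.den ∧ (p : ℤ) ^ n ∣ (u - v).num

open Pool.Agent.Q278.YC Pool.Agent.Q267.CDE Q278.PI Pool.Agent.Q278.SX Pool.Agent.Q278.VX

theorem gbinom_prod (a b c : ℚ) (k : ℕ) : gbinom a k * gbinom b k * c ^ k =
    ∏ i ∈ range k, ((a - i) * (b - i) * c / ((i : ℚ) + 1) ^ 2) := by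
  induction k with
  | zero => simp [gbinom]
  | succ k ih =>
    have h1 : ((k : ℚ) + 1) ≠ 0 := by positivity
    have h2 : ((k.factorial : ℕ) : ℚ) ≠ 0 := by exact_mod_cast k.factorial_ne_zero
    rw [prod_range_succ, ← ih]
    unfold gbinom
    rw [prod_range_succ, prod_range_succ, Nat.factorial_succ]
    push_cast
    field_simp
    ring

/-- numerators -/
def nS (i : ℕ) : ℤ := -((2 * i + 1) * (6 * i + 1))

/-- denominators -/
def dS (i : ℕ) : ℤ := 500 * (i + 1) ^ 2

theorem dS_nd {p : ℕ} [Fact p.Prime] (h5 : 5 < p) (i : ℕ) (hi : i + 1 < p) : ¬ (p : ℤ) ∣ dS i := by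
  have n2 := small_nd' (p := p) h5 2 (by norm_num) (by norm_num)
  have n5 := small_nd' (p := p) h5 5 (by norm_num) (by norm_num)
  have ni : ¬ (p : ℤ) ∣ ((i : ℤ) + 1) := not_dvd_small _ (by omega) (by omega) (by omega)
  have h := not_dvd_mul (not_dvd_mul n2 n2) (not_dvd_mul n5 (not_dvd_mul n5 n5))
  norm_num at h
  unfold dS
  refine not_dvd_mul h ?_
  rw [pow_two]
  exact not_dvd_mul ni ni

theorem S_coe {p : ℕ} [Fact p.Prime] (h5 : 5 < p) : ((SO p nS dS : O p) : ℚ) = S p := by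
  rw [SO_coe _ _ (dS_nd h5)]
  unfold S
  refine sum_congr rfl fun k _ => ?_
  rw [gbinom_prod]
  refine prod_congr rfl fun i _ => ?_
  have h1 : ((i : ℚ) + 1) ≠ 0 := by positivity
  unfold nS dS
  push_cast
  field_simp
  ring

theorem S_res {p : ℕ} [Fact p.Prime] (h5 : 5 < p) (y z : R p) (hy : 6 * y = 1)
    (hz : 125 * z = -3) : res2 p (SO p nS dS) = Hs p y (3 * y) z 0 0 0 0 :=
  SO_tm nS dS y (3 * y) z 0 0 0 0 (fun i => 6 * (i : R p) + 1) (fun i => 2 * (i : R p) + 1)
    (fun i => (i : R p) + 1) (fun i => (i : R p) + 1) (-1) 500 6 2 1 1 (dS_nd h5)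
    (fun i => by unfold nS; push_cast; ring) (fun i => by unfold dS; push_cast; ring)
    (fun i => by linear_combination -hy) (fun i => by linear_combination -hy)
    (fun i => by ring) (fun i => by ring) (by linear_combination 4 * hz)

/-- **The sum at `-3/125`.** -/
theorem result (p : ℕ) (hp : p.Prime) (h5 : 5 < p) :
    (∀ A B : ℤ, (p : ℤ) = A ^ 2 + 3 * B ^ 2 →
      Cong p 2 (S p) (2 * A - (p : ℚ) / (2 * A)) ∨ Cong p 2 (S p) (-(2 * A - (p : ℚ) / (2 * A)))) ∧
      (p % 3 = 2 → Cong p 1 (S p) 0) := by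
  have : Fact p.Prime := ⟨hp⟩
  have n2 := small_nd' (p := p) h5 2 (by norm_num) (by norm_num)
  have n5 := small_nd' (p := p) h5 5 (by norm_num) (by norm_num)
  have n6 := small_nd' (p := p) h5 6 (by norm_num) (by norm_num)
  have n125 := not_dvd_mul n5 (not_dvd_mul n5 n5)
  norm_num at n125
  have hy := res2_invI p 6 n6
  have hz0 := res2_invI p 125 n125
  push_cast at hy hz0
  have hz : 125 * (-3 * res2 p (invI p 125)) = (-3 : R p) := by linear_combination -3 * hz0
  have hodd : p % 2 = 1 := hp.eq_two_or_odd.resolve_left (by omega)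
  have hS := S_res h5 _ _ hy hz
  set V0 := Hs p (res2 p (invI p 6)) (3 * res2 p (invI p 6)) (-3 * res2 p (invI p 125)) 0 0 0 0
  have m1 := (SO p nS dS : O p).2
  constructor
  · intro A B hAB
    have h3 : p % 3 = 1 := by
      have h0 : p % 3 ≠ 0 := by
        intro h
        have h' : 3 ∣ p := Nat.dvd_of_mod_eq_zero h
        have := (Nat.prime_dvd_prime_iff_eq Nat.prime_three hp).1 h'
        omega
      have h1 : (p : ℤ) % 3 = A ^ 2 % 3 := by rw [hAB]; omega
      have h2 : A ^ 2 % 3 = 0 ∨ A ^ 2 % 3 = 1 := by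
        have : A % 3 = 0 ∨ A % 3 = 1 ∨ A % 3 = 2 := by omega
        rcases this with h | h | h <;> rw [pow_two, Int.mul_emod, h] <;> norm_num
      omega
    obtain ⟨r, hr⟩ : ∃ r, p = 6 * r + 1 := ⟨p / 6, by omega⟩
    have hsq := V_sq hr _ _ hy hz A B hAB
    have hA : ¬ (p : ℤ) ∣ A := by
      intro h
      have hpr : Prime (p : ℤ) := Nat.prime_iff_prime_int.1 hp
      have h1 : (p : ℤ) ∣ 3 * B ^ 2 := by
        have h2 : 3 * B ^ 2 = (p : ℤ) - A * A := by rw [hAB]; ring
        rw [h2]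
        exact dvd_sub dvd_rfl (Dvd.dvd.mul_right h A)
      have n3 := small_nd' (p := p) h5 3 (by norm_num) (by norm_num)
      have h3 : (p : ℤ) ∣ B := hpr.dvd_of_dvd_pow ((hpr.dvd_or_dvd h1).resolve_left n3)
      have h4 : (p : ℤ) * p ∣ p := by
        rw [hAB]
        rw [← hAB]
        obtain ⟨a, ha⟩ := h
        obtain ⟨b, hb⟩ := h3
        refine ⟨a ^ 2 + 3 * b ^ 2, ?_⟩
        rw [ha, hb] at hAB
        linear_combination hAB
      have h5' := Int.le_of_dvd (by exact_mod_cast hp.pos) h4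
      have : (2 : ℤ) ≤ p := by exact_mod_cast hp.two_le
      nlinarith
    have h2A := not_dvd_mul n2 hA
    have hi := res2_invI p (2 * A) h2A
    have hpp := p_sq p
    have e3 : (2 * A : ℚ) - (p : ℚ) / (2 * A) =
        (((2 * (A : O p)) - (p : O p) * invI p (2 * A) : O p) : ℚ) := by
      push_cast
      rw [invI_coe p (2 * A) h2A]
      push_cast
      rfl
    set w := res2 p (invI p (2 * A))
    push_cast at hi
    have g3 : res2 p ((2 * (A : O p)) - (p : O p) * invI p (2 * A)) = 2 * A - p * w := by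
      rw [map_sub, map_mul, map_mul, map_intCast, map_natCast, map_ofNat]
    have hY : (2 * (A : R p) - p * w) ^ 2 = 4 * (A : R p) ^ 2 - 2 * p := by
      linear_combination w ^ 2 * hpp - 2 * p * hi
    have hYu : IsUnit (2 * (A : R p) - p * w) := by
      have h1 : IsUnit (2 * (A : R p)) := IsUnit.of_mul_eq_one _ hi
      apply isUnit_of_red
      rw [map_sub, map_mul (red p) (p : R p), red_nat p p, CharP.cast_eq_zero (ZMod p) p, zero_mul,
        sub_zero]
      exact (h1.map (red p)).ne_zero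
    have hred : (red p V0) ^ 2 = (red p (2 * (A : R p) - p * w)) ^ 2 := by
      rw [← map_pow, ← map_pow, hsq, hY]
    have hp2 : p ≠ 2 := by omega
    have m3 := ((2 * (A : O p)) - (p : O p) * invI p (2 * A) : O p).2
    have m4 := (-((2 * (A : O p)) - (p : O p) * invI p (2 * A)) : O p).2
    rw [← S_coe h5, e3]
    rcases sq_eq_sq_iff_eq_or_eq_neg.1 hred with h | h
    · left
      refine ⟨m1, m3, cong_of_res2 p _ _ ?_⟩
      rw [hS, g3]
      exact sq_one_eq hp2 _ _ (by rw [hsq, hY]) hYu h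
    · right
      refine ⟨m1, m4, cong_of_res2 p _ (-((2 * (A : O p)) - (p : O p) * invI p (2 * A)) : O p) ?_⟩
      rw [hS, map_neg, g3]
      refine sq_one_eq hp2 _ _ (by rw [hsq, neg_sq, hY]) hYu.neg ?_
      rw [h, map_neg]
  · intro h3
    obtain ⟨m, hm⟩ : ∃ m, p = 6 * m + 5 := ⟨p / 6, by omega⟩
    have hz2 := V_zero hm _ _ h5 hy hz
    rw [← S_coe h5]
    refine ⟨m1, by simpa using hp.one_lt.ne', ?_⟩
    have h1 : res2 p ((p : O p) * SO p nS dS) = res2 p 0 := by
      rw [map_mul, map_natCast, hS, map_zero]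
      exact hz2
    obtain ⟨q, hq⟩ := res2_zero p ((p : O p) * SO p nS dS) (by rw [h1, map_zero])
    have h2 : ((SO p nS dS : O p) : ℚ) = (p : ℚ) ^ 1 * (q : ℚ) := by
      have h4 := congrArg (Subtype.val) hq
      push_cast at h4
      have hp0 : (p : ℚ) ≠ 0 := by exact_mod_cast hp.ne_zero
      apply mul_left_cancel₀ hp0
      rw [h4]
      ring
    rw [sub_zero]
    exact num_dvd p 1 _ (q : ℚ) q.2 h2

end Pool.Agent.Results.MP_683361_nt.Full
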